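import Mathlib

/-!
# Canonical join complexes are not closed under induced subcomplexes

For join-irreducible elements `j, j'` of a finite semidistributive lattice write `j → j'` if
`¬ j ≤ κ j'`.  Two different join-irreducible elements form a face of the canonical join complex
iff there is no arrow between them, and every arrow `j → j'` factors through a join-irreducible
element `x` with `x ≤ j` and `κ j' ≤ κ x`.  If the graph of arrows is triangle-free it follows that
there is no directed path with three arrows, so this graph is 3-colourable.  On the other hand each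
finite graph is an induced subgraph of such a graph of arrows (double suitable intervals of a
Boolean lattice).  We apply this to the Grötzsch graph.
-/

namespace Pool.Agent.Results.MP_b1aa48_co.NotHereditary

universe u

/-- Semidistributive lattices. -/
def Semidistributive (L : Type u) [Lattice L] : Prop :=
  (∀ x y z : L, x ⊔ y = x ⊔ z → x ⊔ (y ⊓ z) = x ⊔ y) ∧
  (∀ x y z : L, x ⊓ y = x ⊓ z → x ⊓ (y ⊔ z) = x ⊓ y)

/-- `A` is the canonical join representation of `w`: its join is `w`, no proper subset of `A` has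
join `w`, and `A` refines every set with join `w`. -/
def IsCanonicalJoinRep {L : Type u} [Lattice L] (A : Set L) (w : L) : Prop :=
  IsLUB A w ∧ (∀ B : Set L, B ⊂ A → ¬ IsLUB B w) ∧
    ∀ B : Set L, IsLUB B w → ∀ a ∈ A, ∃ b ∈ B, a ≤ b

/-- The faces of the canonical join complex of `L`; the vertices are the join-irreducible
elements. -/
def canonicalJoinComplex (L : Type u) [Lattice L] : Set (Set {j : L // SupIrred j}) :=
  {A | ∃ w : L, IsCanonicalJoinRep (Subtype.val '' A) w}

/-- The subcomplex induced on a set `W` of vertices. -/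
def induced {V : Type u} (Δ : Set (Set V)) (W : Set V) : Set (Set W) :=
  {A | Subtype.val '' A ∈ Δ}

/-- Isomorphism of simplicial complexes. -/
def ComplexIso {V : Type} {V' : Type u} (Δ : Set (Set V)) (Δ' : Set (Set V')) : Prop :=
  ∃ f : V ≃ V', ∀ A : Set V, A ∈ Δ ↔ f '' A ∈ Δ'

/-! ### Finite semidistributive lattices -/

section general

variable {L : Type u} [Lattice L] [Finite L]

/-- The largest element below a join-irreducible one. -/
lemma exists_star {j : L} (hj : SupIrred j) : ∃ s : L, s < j ∧ ∀ z, z < j → z ≤ s := by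
  have hfin : (Set.Iio j).Finite := Set.toFinite _
  obtain ⟨b, hb⟩ : ∃ b, b < j := by
    have := hj.1
    rw [not_isMin_iff] at this
    exact this
  obtain ⟨s, hs, hmax⟩ := hfin.exists_maximal ⟨b, hb⟩
  refine ⟨s, hs, fun z hz => ?_⟩
  have h1 : s ⊔ z ≤ j := sup_le (le_of_lt hs) (le_of_lt hz)
  have h2 : s ⊔ z ≠ j := by
    intro h
    rcases hj.2 h with h | h
    · exact absurd h (ne_of_lt hs)
    · exact absurd h (ne_of_lt hz)
  have h3 : s ⊔ z ≤ s := hmax (lt_of_le_of_ne h1 h2) le_sup_left
  exact le_trans le_sup_right h3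

lemma exists_kappa (hL : Semidistributive L) {j : L} (hj : SupIrred j) :
    ∃ c : L, ¬ j ≤ c ∧ (∀ z, z < j → z ≤ c) ∧
      ∀ y, (∀ z, z < j → z ≤ y) → ¬ j ≤ y → y ≤ c := by
  obtain ⟨s, hs, hsmax⟩ := exists_star hj
  let T : Set L := {y | s ≤ y ∧ ¬ j ≤ y}
  have hT : T.Finite := Set.toFinite _
  obtain ⟨c, hc, hmax⟩ := hT.exists_maximal ⟨s, le_rfl, not_le_of_gt hs⟩
  have hinf : ∀ y ∈ T, j ⊓ y = s := by
    intro y hy
    apply le_antisymm
    · apply hsmax
      refine lt_of_le_of_ne inf_le_left ?_
      intro h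
      exact hy.2 (inf_eq_left.1 h)
    · exact le_inf (le_of_lt hs) hy.1
  refine ⟨c, hc.2, fun z hz => le_trans (hsmax z hz) hc.1, ?_⟩
  intro y hy hjy
  have hyT : y ∈ T := ⟨hy s hs, hjy⟩
  have h1 : j ⊓ (c ⊔ y) = j ⊓ c := hL.2 j c y (by rw [hinf c hc, hinf y hyT])
  have h2 : c ⊔ y ∈ T := by
    refine ⟨le_trans hc.1 le_sup_left, ?_⟩
    intro h
    have h3 : j ⊓ (c ⊔ y) = j := inf_eq_left.2 h
    rw [h1, hinf c hc] at h3
    exact absurd h3 (ne_of_lt hs)
  have h3 : c ⊔ y ≤ c := hmax h2 le_sup_left
  exact le_trans le_sup_right h3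

open Classical in
/-- The element `κ j`. -/
noncomputable def kappa (j : L) : L :=
  if h : ∃ c : L, ¬ j ≤ c ∧ (∀ z, z < j → z ≤ c) ∧
      ∀ y, (∀ z, z < j → z ≤ y) → ¬ j ≤ y → y ≤ c then h.choose else j

lemma kappa_spec (hL : Semidistributive L) {j : L} (hj : SupIrred j) :
    ¬ j ≤ kappa j ∧ (∀ z, z < j → z ≤ kappa j) ∧
      ∀ y, (∀ z, z < j → z ≤ y) → ¬ j ≤ y → y ≤ kappa j := by
  have h := exists_kappa hL hj
  unfold kappa
  rw [dif_pos h]
  exact h.choose_spec

lemma kappa_inj (hL : Semidistributive L) {j j' : L} (hj : SupIrred j) (hj' : SupIrred j')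
    (h : kappa j = kappa j') : j = j' := by
  obtain ⟨a1, a2, a3⟩ := kappa_spec hL hj
  obtain ⟨b1, b2, b3⟩ := kappa_spec hL hj'
  rw [← h] at b1 b2 b3
  set c := kappa j with hc
  have key1 : ∀ y, c < y → j ≤ y := by
    intro y hy
    by_contra hn
    exact absurd (a3 y (fun z hz => le_trans (a2 z hz) (le_of_lt hy)) hn) (not_le_of_gt hy)
  have key2 : ∀ y, c < y → j' ≤ y := by
    intro y hy
    by_contra hn
    exact absurd (b3 y (fun z hz => le_trans (b2 z hz) (le_of_lt hy)) hn) (not_le_of_gt hy)
  have hlt1 : c < c ⊔ j := lt_of_le_of_ne le_sup_left (fun e => a1 (sup_eq_left.1 e.symm))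
  have hlt2 : c < c ⊔ j' := lt_of_le_of_ne le_sup_left (fun e => b1 (sup_eq_left.1 e.symm))
  have heq : c ⊔ j = c ⊔ j' := by
    apply le_antisymm
    · exact sup_le le_sup_left (key1 _ hlt2)
    · exact sup_le le_sup_left (key2 _ hlt1)
  have h1 := hL.1 c j j' heq
  have h2 : ¬ j ⊓ j' ≤ c := by
    intro hle
    rw [sup_eq_left.2 hle] at h1
    exact absurd h1 (ne_of_lt hlt1)
  have h3 : j ⊓ j' = j := by
    by_contra hne
    exact h2 (a2 _ (lt_of_le_of_ne inf_le_left hne))
  have h4 : j ⊓ j' = j' := by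
    by_contra hne
    exact h2 (b2 _ (lt_of_le_of_ne inf_le_right hne))
  rw [← h3, h4]

/-- Factorisation of an arrow. -/
lemma factor (hL : Semidistributive L) {j j' : L} (h : ¬ j ≤ kappa j') :
    ∃ x : L, SupIrred x ∧ x ≤ j ∧ kappa j' ≤ kappa x := by
  let T : Set L := {x | x ≤ j ∧ ¬ x ≤ kappa j'}
  have hT : T.Finite := Set.toFinite _
  obtain ⟨x, hx, hmin⟩ := hT.exists_minimal ⟨j, le_rfl, h⟩
  have hlt : ∀ z, z < x → z ≤ kappa j' := by
    intro z hz
    by_contra hn
    have : x ≤ z := hmin ⟨le_trans (le_of_lt hz) hx.1, hn⟩ (le_of_lt hz)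
    exact absurd this (not_le_of_gt hz)
  have hirr : SupIrred x := by
    refine ⟨?_, ?_⟩
    · intro hm
      apply hx.2
      have h1 : x ⊓ kappa j' ≤ x := inf_le_left
      have h2 : x ≤ x ⊓ kappa j' := hm h1
      exact le_trans h2 inf_le_right
    · intro b c hbc
      by_contra hcon
      push Not at hcon
      have hb : b < x := lt_of_le_of_ne (hbc ▸ le_sup_left) hcon.1
      have hc : c < x := lt_of_le_of_ne (hbc ▸ le_sup_right) hcon.2
      exact hx.2 (hbc ▸ sup_le (hlt b hb) (hlt c hc))
  exact ⟨x, hirr, hx.1, (kappa_spec hL hirr).2.2 _ hlt hx.2⟩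

omit [Finite L] in
lemma isLUB_pair_eq {a b w : L} (h : IsLUB {a, b} w) : w = a ⊔ b :=
  h.unique isLUB_pair

/-- The edges of the canonical join complex. -/
lemma edge_iff (hL : Semidistributive L) {j j' : L} (hj : SupIrred j) (hj' : SupIrred j') :
    (∃ w, IsCanonicalJoinRep ({j, j'} : Set L) w) ∧ j ≠ j' ↔ j ≤ kappa j' ∧ j' ≤ kappa j := by
  constructor
  · rintro ⟨⟨w, hw, hirr, href⟩, hne⟩
    have hwe := isLUB_pair_eq hw
    have main : ∀ a b : L, SupIrred a → ({a, b} : Set L) = {j, j'} → a ≠ b → b ≤ kappa a := by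
      intro a b ha hab hnab
      by_contra hcon
      obtain ⟨s, hs, hsmax⟩ := exists_star ha
      obtain ⟨k1, k2, k3⟩ := kappa_spec hL ha
      have hwab : IsLUB ({a, b} : Set L) w := hab ▸ hw
      have hwe' : w = a ⊔ b := isLUB_pair_eq hwab
      have hle : a ≤ s ⊔ b := by
        by_contra hn
        have := k3 (s ⊔ b) (fun z hz => le_trans (hsmax z hz) le_sup_left) hn
        exact hcon (le_trans le_sup_right this)
      have hw2 : IsLUB ({s, b} : Set L) w := by
        have : w = s ⊔ b := by
          rw [hwe']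
          apply le_antisymm
          · exact sup_le hle le_sup_right
          · exact sup_le (le_trans (le_of_lt hs) le_sup_left) le_sup_right
        rw [this]
        exact isLUB_pair
      obtain ⟨c, hc, hac⟩ := href _ hw2 a (hab ▸ Set.mem_insert a {b})
      rcases hc with rfl | hc
      · exact absurd hac (not_le_of_gt hs)
      · rw [Set.mem_singleton_iff] at hc
        subst hc
        -- `a ≤ c`, so `{c}` has join `w`
        have h1 : IsLUB ({c} : Set L) w := by
          rw [hwe', sup_eq_right.2 hac]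
          exact isLUB_singleton
        refine hirr {c} ?_ h1
        rw [← hab]
        refine ⟨by intro x hx; right; exact hx, ?_⟩
        intro hsub
        have := hsub (Set.mem_insert a {c})
        exact hnab this
    exact ⟨main j' j hj' (Set.pair_comm _ _) hne.symm, main j j' hj rfl hne⟩
  · rintro ⟨h1, h2⟩
    obtain ⟨a1, a2, a3⟩ := kappa_spec hL hj
    obtain ⟨b1, b2, b3⟩ := kappa_spec hL hj'
    have hne : j ≠ j' := by
      rintro rfl
      exact a1 h1
    have hjj' : ¬ j ≤ j' := fun h => a1 (le_trans h h2)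
    have hj'j : ¬ j' ≤ j := fun h => b1 (le_trans h h1)
    refine ⟨⟨j ⊔ j', isLUB_pair, ?_, ?_⟩, hne⟩
    · intro B hB hBw
      have hcase : j ∉ B ∨ j' ∉ B := by
        by_contra hcon
        push Not at hcon
        apply hB.2
        intro x hx
        rcases hx with rfl | hx
        · exact hcon.1
        · rw [Set.mem_singleton_iff] at hx
          rw [hx]
          exact hcon.2
      rcases hcase with hcase | hcase
      · have : j ⊔ j' ≤ j' := by
          apply hBw.2
          intro x hx
          rcases hB.1 hx with rfl | hx'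
          · exact absurd hx hcase
          · exact le_of_eq hx'
        exact hjj' (le_trans le_sup_left this)
      · have : j ⊔ j' ≤ j := by
          apply hBw.2
          intro x hx
          rcases hB.1 hx with rfl | hx'
          · exact le_rfl
          · rw [Set.mem_singleton_iff] at hx'
            rw [hx'] at hx
            exact absurd hx hcase
        exact hj'j (le_trans le_sup_right this)
    · intro B hBw
      have main : ∀ a b : L, SupIrred a → a ⊔ b = j ⊔ j' → b ≤ kappa a → ∃ c ∈ B, a ≤ c := by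
        intro a b ha hab hb
        obtain ⟨k1, k2, k3⟩ := kappa_spec hL ha
        have hw : ¬ j ⊔ j' ≤ kappa a := by
          rw [← hab]
          intro h
          exact k1 (le_trans le_sup_left h)
        obtain ⟨c, hcB, hc⟩ : ∃ c ∈ B, ¬ c ≤ kappa a := by
          by_contra hcon
          push Not at hcon
          exact hw (hBw.2 hcon)
        refine ⟨c, hcB, ?_⟩
        have hcw : c ≤ a ⊔ b := by
          rw [hab]
          exact hBw.1 hcB
        set m := (a ⊔ b) ⊓ kappa a with hm
        have hbm : b ≤ m := le_inf le_sup_right hb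
        have e1 : m ⊔ a = a ⊔ b := by
          apply le_antisymm
          · exact sup_le inf_le_left le_sup_left
          · exact sup_le le_sup_right (le_trans hbm le_sup_left)
        have e2 : m ⊔ c = a ⊔ b := by
          apply le_antisymm
          · exact sup_le inf_le_left hcw
          · have hac : a ≤ m ⊔ c := by
              by_contra hn
              have := k3 (m ⊔ c) (fun z hz => le_trans
                (le_inf (le_trans (le_of_lt hz) le_sup_left) (k2 z hz)) le_sup_left) hn
              exact hc (le_trans le_sup_right this)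
            exact sup_le hac (le_trans hbm le_sup_left)
        have e3 := hL.1 m a c (by rw [e1, e2])
        rw [e1] at e3
        have hn : ¬ a ⊓ c ≤ kappa a := by
          intro hle
          apply hw
          rw [← hab, ← e3]
          exact sup_le inf_le_right hle
        have e4 : a ⊓ c = a := by
          by_contra hne
          exact hn (k2 _ (lt_of_le_of_ne inf_le_left hne))
        exact inf_eq_left.1 e4
      intro a ha
      rcases ha with rfl | ha
      · exact main a j' hj rfl h2
      · rw [Set.mem_singleton_iff] at ha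
        subst ha
        exact main a j hj' (sup_comm _ _) h1

end general

/-! ### The lattice of closed sets -/

section closed

variable {V : Type} {E : V → V → Prop}

/-- The vertices forced by a set `F` of pairs. -/
def forcedSet (E : V → V → Prop) (F : Set (V × V)) : Set V :=
  {v | (∀ y, E v y → (v, y) ∈ F) ∧ ∃ u, E u v ∧ (u, v) ∈ F}

lemma forcedSet_mono {F G : Set (V × V)} (h : F ⊆ G) : forcedSet E F ⊆ forcedSet E G := by
  rintro v ⟨h1, u, hu, hu'⟩
  exact ⟨fun y hy => h (h1 y hy), u, hu, h hu'⟩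

variable (E) in
/-- A Boolean lattice with some intervals doubled. -/
@[ext]
structure Cl where
  /-- vertices -/
  S : Set V
  /-- pairs of vertices -/
  F : Set (V × V)
  out : ∀ v ∈ S, ∀ y, E v y → (v, y) ∈ F
  forced : forcedSet E F ⊆ S

namespace Cl

instance : PartialOrder (Cl E) :=
  PartialOrder.lift (fun X : Cl E => (X.S, X.F)) (fun X Y h => by
    have h1 := congrArg Prod.fst h
    have h2 := congrArg Prod.snd h
    exact Cl.ext h1 h2)

lemma le_def {X Y : Cl E} : X ≤ Y ↔ X.S ⊆ Y.S ∧ X.F ⊆ Y.F := Iff.rfl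

/-- The join. -/
def sup (X Y : Cl E) : Cl E where
  S := X.S ∪ Y.S ∪ forcedSet E (X.F ∪ Y.F)
  F := X.F ∪ Y.F
  out := by
    rintro v ((hv | hv) | hv) y hy
    · exact Or.inl (X.out v hv y hy)
    · exact Or.inr (Y.out v hv y hy)
    · exact hv.1 y hy
  forced := fun _ hv => Or.inr hv

/-- The meet. -/
def inf (X Y : Cl E) : Cl E where
  S := X.S ∩ Y.S
  F := X.F ∩ Y.F
  out := fun v hv y hy => ⟨X.out v hv.1 y hy, Y.out v hv.2 y hy⟩
  forced := fun _ hv => ⟨X.forced (forcedSet_mono Set.inter_subset_left hv),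
    Y.forced (forcedSet_mono Set.inter_subset_right hv)⟩

instance : Lattice (Cl E) where
  sup := sup
  inf := inf
  le_sup_left := fun X Y => ⟨fun v hv => Or.inl (Or.inl hv), fun p hp => Or.inl hp⟩
  le_sup_right := fun X Y => ⟨fun v hv => Or.inl (Or.inr hv), fun p hp => Or.inr hp⟩
  sup_le := by
    intro X Y Z hX hY
    have hF : X.F ∪ Y.F ⊆ Z.F := Set.union_subset hX.2 hY.2
    exact ⟨Set.union_subset (Set.union_subset hX.1 hY.1)
      ((forcedSet_mono hF).trans Z.forced), hF⟩
  inf_le_left := fun X Y => ⟨Set.inter_subset_left, Set.inter_subset_left⟩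
  inf_le_right := fun X Y => ⟨Set.inter_subset_right, Set.inter_subset_right⟩
  le_inf := fun X Y Z h1 h2 => ⟨Set.subset_inter h1.1 h2.1, Set.subset_inter h1.2 h2.2⟩

lemma sup_S (X Y : Cl E) : (X ⊔ Y).S = X.S ∪ Y.S ∪ forcedSet E (X.F ∪ Y.F) := rfl

lemma sup_F (X Y : Cl E) : (X ⊔ Y).F = X.F ∪ Y.F := rfl

lemma inf_S (X Y : Cl E) : (X ⊓ Y).S = X.S ∩ Y.S := rfl

lemma inf_F (X Y : Cl E) : (X ⊓ Y).F = X.F ∩ Y.F := rfl

instance [Finite V] : Finite (Cl E) :=
  Finite.of_injective (fun X : Cl E => (X.S, X.F)) (fun X Y h => by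
    have h1 := congrArg Prod.fst h
    have h2 := congrArg Prod.snd h
    exact Cl.ext h1 h2)

lemma semidistributive : Semidistributive (Cl E) := by
  constructor
  · intro X Y Z h
    have hF : X.F ∪ Y.F = X.F ∪ Z.F := congrArg Cl.F h
    have hS : X.S ∪ Y.S ∪ forcedSet E (X.F ∪ Y.F) = X.S ∪ Z.S ∪ forcedSet E (X.F ∪ Z.F) :=
      congrArg Cl.S h
    have hF2 : X.F ∪ (Y.F ∩ Z.F) = X.F ∪ Y.F := by
      rw [Set.union_inter_distrib_left, ← hF, Set.inter_self]
    apply Cl.ext
    · rw [sup_S, sup_S, inf_S, inf_F, hF2]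
      apply Set.Subset.antisymm
      · rintro v ((hv | hv) | hv)
        · exact Or.inl (Or.inl hv)
        · exact Or.inl (Or.inr hv.1)
        · exact Or.inr hv
      · rintro v ((hv | hv) | hv)
        · exact Or.inl (Or.inl hv)
        · have h1 : v ∈ X.S ∪ Z.S ∪ forcedSet E (X.F ∪ Z.F) := by
            rw [← hS]
            exact Or.inl (Or.inr hv)
          rcases h1 with (h1 | h1) | h1
          · exact Or.inl (Or.inl h1)
          · exact Or.inl (Or.inr ⟨hv, h1⟩)
          · rw [← hF] at h1
            exact Or.inr h1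
        · exact Or.inr hv
    · rw [sup_F, sup_F, inf_F, hF2]
  · intro X Y Z h
    have hF : X.F ∩ Y.F = X.F ∩ Z.F := congrArg Cl.F h
    have hS : X.S ∩ Y.S = X.S ∩ Z.S := congrArg Cl.S h
    have hF2 : X.F ∩ (Y.F ∪ Z.F) = X.F ∩ Y.F := by
      rw [Set.inter_union_distrib_left, ← hF, Set.union_self]
    apply Cl.ext
    · rw [inf_S, inf_S, sup_S]
      apply Set.Subset.antisymm
      · rintro v ⟨hvX, (hv | hv) | hv⟩
        · exact ⟨hvX, hv⟩
        · rw [hS]
          exact ⟨hvX, hv⟩
        · have hout : ∀ y, E v y → (v, y) ∈ X.F ∩ Y.F := by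
            intro y hy
            rw [← hF2]
            exact ⟨X.out v hvX y hy, hv.1 y hy⟩
          obtain ⟨u, hu, hu'⟩ := hv.2
          rcases hu' with hu' | hu'
          · exact ⟨hvX, Y.forced ⟨fun y hy => (hout y hy).2, u, hu, hu'⟩⟩
          · rw [hS]
            refine ⟨hvX, Z.forced ⟨fun y hy => ?_, u, hu, hu'⟩⟩
            have := hout y hy
            rw [hF] at this
            exact this.2
      · rintro v ⟨hvX, hv⟩
        exact ⟨hvX, Or.inl (Or.inl hv)⟩
    · rw [inf_F, inf_F, sup_F, hF2]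

/-- The pairs `(v, y)` with `E v y`. -/
def outs (E : V → V → Prop) (v : V) : Set (V × V) := {p | p.1 = v ∧ E v p.2}

/-- The join-irreducible element of `v`. -/
def jv (E : V → V → Prop) (v : V) : Cl E where
  S := {v} ∪ forcedSet E (outs E v)
  F := outs E v
  out := by
    rintro w (hw | hw) y hy
    · rw [Set.mem_singleton_iff] at hw
      subst hw
      exact ⟨rfl, hy⟩
    · exact hw.1 y hy
  forced := fun _ hw => Or.inr hw

/-- The element below `jv v`. -/
def js (E : V → V → Prop) (v : V) : Cl E where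
  S := forcedSet E (outs E v)
  F := outs E v
  out := fun _ hw y hy => hw.1 y hy
  forced := fun _ hw => hw

lemma not_mem_forced (hirr : ∀ v, ¬ E v v) (v : V) : v ∉ forcedSet E (outs E v) := by
  rintro ⟨_, u, hu, hu', _⟩
  simp only at hu'
  subst hu'
  exact hirr _ hu

lemma le_of_mem {v : V} {X : Cl E} (h : v ∈ X.S) : jv E v ≤ X := by
  have hF : outs E v ⊆ X.F := by
    rintro ⟨a, b⟩ ⟨h1, h2⟩
    simp only at h1 h2
    subst h1
    exact X.out a h b h2
  exact ⟨Set.union_subset (Set.singleton_subset_iff.2 h) ((forcedSet_mono hF).trans X.forced), hF⟩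

lemma js_lt (hirr : ∀ v, ¬ E v v) (v : V) : js E v < jv E v := by
  refine lt_of_le_not_ge ⟨Set.subset_union_right, subset_rfl⟩ ?_
  intro h
  exact not_mem_forced hirr v (h.1 (Or.inl rfl))

lemma le_js {v : V} {X : Cl E} (h : X < jv E v) : X ≤ js E v := by
  have hv : v ∉ X.S := fun hv => absurd (le_of_mem hv) (not_le_of_gt h)
  refine ⟨?_, (le_of_lt h).2⟩
  intro w hw
  rcases (le_of_lt h).1 hw with hw' | hw'
  · rw [Set.mem_singleton_iff] at hw'
    rw [hw'] at hw
    exact absurd hw hv
  · exact hw'

lemma supIrred_jv (hirr : ∀ v, ¬ E v v) (v : V) : SupIrred (jv E v) := by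
  refine ⟨?_, ?_⟩
  · intro h
    exact absurd (h (le_of_lt (js_lt hirr v))) (not_le_of_gt (js_lt hirr v))
  · intro b c hbc
    have hv : v ∈ (b ⊔ c).S := by
      rw [hbc]
      exact Or.inl rfl
    have hb : b ≤ jv E v := hbc ▸ le_sup_left
    have hc : c ≤ jv E v := hbc ▸ le_sup_right
    rcases hv with (hv | hv) | hv
    · exact Or.inl (le_antisymm hb (le_of_mem hv))
    · exact Or.inr (le_antisymm hc (le_of_mem hv))
    · exact absurd (forcedSet_mono (Set.union_subset hb.2 hc.2) hv) (not_mem_forced hirr v)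

lemma jv_inj (hasymm : ∀ u v, E u v → ¬ E v u) {u v : V}
    (h : jv E u = jv E v) : u = v := by
  by_contra hne
  have key : ∀ a b : V, a ≠ b → jv E a = jv E b → E b a := by
    intro a b hab hj
    have ha : a ∈ (jv E b).S := by
      rw [← hj]
      exact Or.inl rfl
    rcases ha with ha | ⟨_, w, hw, hw', _⟩
    · exact absurd ha hab
    · simp only at hw'
      rw [hw'] at hw
      exact hw
  exact hasymm _ _ (key u v hne h) (key v u (Ne.symm hne) h.symm)

lemma le_kappa_iff [Finite V] (hirr : ∀ v, ¬ E v v) {u v : V} (hne : u ≠ v) :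
    jv E u ≤ kappa (jv E v) ↔ ¬ E u v := by
  obtain ⟨k1, k2, k3⟩ := kappa_spec (semidistributive (E := E)) (supIrred_jv hirr v)
  constructor
  · intro h huv
    apply k1
    have h1 : jv E v ≤ js E v ⊔ jv E u := by
      apply le_of_mem
      refine Or.inr ⟨fun y hy => Or.inl ⟨rfl, hy⟩, u, huv, Or.inr ⟨rfl, huv⟩⟩
    exact le_trans h1 (sup_le (k2 _ (js_lt hirr v)) h)
  · intro huv
    have hn : ¬ jv E v ≤ js E v ⊔ jv E u := by
      intro h
      have hv : v ∈ (js E v ⊔ jv E u).S := h.1 (Or.inl rfl)
      rcases hv with (hv | hv | hv) | ⟨_, w, hw, hw' | hw'⟩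
      · exact not_mem_forced hirr v hv
      · exact hne hv.symm
      · obtain ⟨_, w, hw, hw', _⟩ := hv
        simp only at hw'
        rw [hw'] at hw
        exact huv hw
      · have h1 : w = v := hw'.1
        rw [h1] at hw
        exact hirr v hw
      · have h1 : w = u := hw'.1
        rw [h1] at hw
        exact huv hw
    have := k3 _ (fun z hz => le_trans (le_js hz) le_sup_left) hn
    exact le_trans le_sup_right this

end Cl

end closed

/-! ### The Grötzsch graph -/

/-- The edges of the Grötzsch graph on `Fin 11`: `0, …, 4` is the outer pentagon, `i + 5` is the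
copy of `i`, and `10` is the last vertex. -/
def edgeList : List (Fin 11 × Fin 11) :=
  [(0, 1), (1, 2), (2, 3), (3, 4), (0, 4),
    (1, 5), (4, 5), (0, 6), (2, 6), (1, 7), (3, 7), (2, 8), (4, 8), (3, 9), (0, 9),
    (5, 10), (6, 10), (7, 10), (8, 10), (9, 10)]

/-- The oriented edges. -/
def GE (u v : Fin 11) : Prop := (u, v) ∈ edgeList

instance (u v : Fin 11) : Decidable (GE u v) := by unfold GE; infer_instance

/-- Adjacency. -/
def Adj (u v : Fin 11) : Prop := GE u v ∨ GE v u

instance (u v : Fin 11) : Decidable (Adj u v) := by unfold Adj; infer_instance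

lemma GE_irrefl : ∀ v, ¬ GE v v := by decide

lemma GE_asymm : ∀ u v, GE u v → ¬ GE v u := by decide

lemma triangle_free : ∀ a b c, Adj a b → Adj b c → Adj a c → False := by decide

lemma Adj_symm {a b : Fin 11} (h : Adj a b) : Adj b a := Or.symm h

lemma third {a b c z : Fin 3} (ha : a ≠ z) (hb : b ≠ z) (hc : c ≠ z) (hab : a ≠ b)
    (hbc : b ≠ c) : a = c := by
  omega

lemma pentagon (a b c d e z : Fin 3) (ha : a ≠ z) (hb : b ≠ z) (hc : c ≠ z) (hd : d ≠ z)
    (he : e ≠ z) (hab : a ≠ b) (hbc : b ≠ c) (hcd : c ≠ d) (hde : d ≠ e) (hae : a ≠ e) :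
    False := by
  have h1 := third ha hb hc hab hbc
  have h2 := third hc hd he hcd hde
  exact hae (h1.trans h2)

/-- The Grötzsch graph is not 3-colourable. -/
lemma not_three_colourable (c : Fin 11 → Fin 3) (h : ∀ u v, Adj u v → c u ≠ c v) : False := by
  let d : Fin 11 → Fin 11 → Fin 3 := fun u w => if c u = c 10 then c w else c u
  have key : ∀ u w x y : Fin 11, Adj w 10 → Adj y 10 → Adj u x → Adj w x → Adj u y →
      d u w ≠ c 10 ∧ d u w ≠ d x y := by
    intro u w x y h1 h2 h3 h4 h5
    have g1 := h w 10 h1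
    have g2 := h y 10 h2
    have g3 := h u x h3
    have g4 := h w x h4
    have g5 := h u y h5
    simp only [d]
    by_cases hu : c u = c 10
    · rw [if_pos hu]
      refine ⟨g1, ?_⟩
      have hx : ¬ c x = c 10 := by
        intro hx
        exact g3 (hu.trans hx.symm)
      rw [if_neg hx]
      exact g4
    · rw [if_neg hu]
      refine ⟨hu, ?_⟩
      by_cases hx : c x = c 10
      · rw [if_pos hx]
        exact g5
      · rw [if_neg hx]
        exact g3
  have k1 := key 0 5 1 6 (by decide) (by decide) (by decide) (by decide) (by decide)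
  have k2 := key 1 6 2 7 (by decide) (by decide) (by decide) (by decide) (by decide)
  have k3 := key 2 7 3 8 (by decide) (by decide) (by decide) (by decide) (by decide)
  have k4 := key 3 8 4 9 (by decide) (by decide) (by decide) (by decide) (by decide)
  have k5 := key 4 9 0 5 (by decide) (by decide) (by decide) (by decide) (by decide)
  exact pentagon _ _ _ _ _ _ k1.1 k2.1 k3.1 k4.1 k5.1 k1.2 k2.2 k3.2 k4.2 k5.2.symm

/-- A relation without directed paths of length three that orients the Grötzsch graph cannot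
exist. -/
lemma no_orientation (A : Fin 11 → Fin 11 → Prop) (hA : ∀ u v, Adj u v → A u v ∨ A v u)
    (hpath : ∀ w x y v, A w x → A x y → A y v → False) : False := by
  classical
  let c : Fin 11 → Fin 3 := fun v =>
    if ∃ w x, A w x ∧ A x v then 2 else if ∃ x, A x v then 1 else 0
  have key : ∀ x y, A x y → c x ≠ c y := by
    intro x y hxy
    simp only [c]
    by_cases h2 : ∃ w x', A w x' ∧ A x' x
    · obtain ⟨w, x', h3, h4⟩ := h2
      exact (hpath w x' x y h3 h4 hxy).elim
    · rw [if_neg h2]
      by_cases h1 : ∃ x', A x' x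
      · obtain ⟨x', h1'⟩ := h1
        rw [if_pos ⟨x', h1'⟩, if_pos ⟨x', x, h1', hxy⟩]
        decide
      · rw [if_neg h1]
        by_cases h3 : ∃ w x', A w x' ∧ A x' y
        · rw [if_pos h3]
          decide
        · rw [if_neg h3, if_pos ⟨x, hxy⟩]
          decide
  refine not_three_colourable c (fun u v huv => ?_)
  rcases hA u v huv with h | h
  · exact key u v h
  · exact (key v u h).symm

/-- The Grötzsch graph is not the graph of arrows of a finite semidistributive lattice. -/
lemma no_lattice {L : Type u} [Lattice L] [Finite L] (hL : Semidistributive L)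
    (J : Fin 11 → L) (hJ : ∀ u, SupIrred (J u)) (hinj : ∀ u v, J u = J v → u = v)
    (hsurj : ∀ j : L, SupIrred j → ∃ u, J u = j)
    (hedge : ∀ u v, u ≠ v → (Adj u v ↔ ¬ (J u ≤ kappa (J v) ∧ J v ≤ kappa (J u)))) : False := by
  let A : Fin 11 → Fin 11 → Prop := fun u v => u ≠ v ∧ ¬ J u ≤ kappa (J v)
  have hk : ∀ u, ¬ J u ≤ kappa (J u) := fun u => (kappa_spec hL (hJ u)).1
  have hAdj : ∀ u v, A u v → Adj u v := fun u v h => (hedge u v h.1).2 (fun hh => h.2 hh.1)
  have key : ∀ x y, A x y → kappa (J y) ≤ kappa (J x) ∨ J y ≤ J x := by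
    intro x y hxy
    obtain ⟨z', hz', h1, h2⟩ := factor hL hxy.2
    obtain ⟨z, rfl⟩ := hsurj z' hz'
    by_cases hzx : z = x
    · left
      rw [hzx] at h2
      exact h2
    by_cases hzy : z = y
    · right
      rw [hzy] at h1
      exact h1
    have a1 : A x z := ⟨fun h => hzx h.symm, fun h => hk z (le_trans h1 h)⟩
    have a2 : A z y := ⟨hzy, fun h => hk z (le_trans h h2)⟩
    exact (triangle_free x z y (hAdj _ _ a1) (hAdj _ _ a2) (hAdj _ _ hxy)).elim
  have no2 : ∀ x y, A x y → A y x → False := by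
    intro x y h1 h2
    rcases key x y h1 with k1 | k1 <;> rcases key y x h2 with k2 | k2
    · exact h1.1 (hinj _ _ (kappa_inj hL (hJ x) (hJ y) (le_antisymm k2 k1)))
    · -- `J x ≤ J y`, `kappa (J y) ≤ kappa (J x)`
      have hlt : J x < J y := lt_of_le_of_ne k2 (fun h => h1.1 (hinj _ _ h))
      exact hk x (le_trans ((kappa_spec hL (hJ y)).2.1 _ hlt) k1)
    · have hlt : J y < J x := lt_of_le_of_ne k1 (fun h => h1.1 (hinj _ _ h.symm))
      exact hk y (le_trans ((kappa_spec hL (hJ x)).2.1 _ hlt) k2)
    · exact h1.1 (hinj _ _ (le_antisymm k2 k1))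
  refine no_orientation A ?_ ?_
  · intro u v huv
    have hne : u ≠ v := by
      rintro rfl
      exact triangle_free u u u huv huv huv
    by_contra hcon
    push Not at hcon
    apply (hedge u v hne).1 huv
    constructor
    · by_contra h
      exact hcon.1 ⟨hne, h⟩
    · by_contra h
      exact hcon.2 ⟨hne.symm, h⟩
  · intro w x y v h1 h2 h3
    rcases key x y h2 with k | k
    · have h4 : ¬ J w ≤ kappa (J y) := fun h => h1.2 (le_trans h k)
      by_cases hwy : w = y
      · rw [hwy] at h1
        exact no2 _ _ h2 h1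
      · exact triangle_free w x y (hAdj _ _ h1) (hAdj _ _ h2) (hAdj _ _ ⟨hwy, h4⟩)
    · have h4 : ¬ J x ≤ kappa (J v) := fun h => h3.2 (le_trans k h)
      by_cases hxv : x = v
      · rw [← hxv] at h3
        exact no2 _ _ h2 h3
      · exact triangle_free x y v (hAdj _ _ h2) (hAdj _ _ h3) (hAdj _ _ ⟨hxv, h4⟩)

/-- The join-irreducible elements of the vertices of the Grötzsch graph. -/
def W : Set {j : Cl GE // SupIrred j} :=
  Set.range (fun v => (⟨Cl.jv GE v, Cl.supIrred_jv GE_irrefl v⟩ : {j : Cl GE // SupIrred j}))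

/-- **Main theorem.** There are a finite semidistributive lattice `L` and a set `W` of
join-irreducible elements of `L` such that the subcomplex of the canonical join complex of `L`
induced on `W` is not isomorphic to the canonical join complex of any finite semidistributive
lattice. -/
theorem result : ∃ (L : Type) (_ : Lattice L) (_ : Finite L), Semidistributive L ∧
    ∃ W : Set {j : L // SupIrred j},
      ∀ (L' : Type u) (_ : Lattice L') (_ : Finite L'), Semidistributive L' →
        ¬ ComplexIso (induced (canonicalJoinComplex L) W) (canonicalJoinComplex L') := by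
  refine ⟨Cl GE, inferInstance, inferInstance, Cl.semidistributive, W, ?_⟩
  intro L' _ _ hL' hiso
  obtain ⟨f, hf⟩ := hiso
  let g : Fin 11 → W := fun v => ⟨_, ⟨v, rfl⟩⟩
  have hg : ∀ v, ((g v : {j : Cl GE // SupIrred j}) : Cl GE) = Cl.jv GE v := fun v => rfl
  have hginj : ∀ u v, g u = g v → u = v := by
    intro u v h
    apply Cl.jv_inj GE_asymm
    rw [← hg, ← hg, h]
  refine no_lattice hL' (fun v => (f (g v) : L')) (fun v => (f (g v)).2) ?_ ?_ ?_
  · intro u v h
    exact hginj _ _ (f.injective (Subtype.ext h))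
  · intro j hj
    obtain ⟨⟨x, v, rfl⟩, hx⟩ := f.surjective ⟨j, hj⟩
    refine ⟨v, ?_⟩
    show ((f (g v)) : L') = j
    have : g v = ⟨_, ⟨v, rfl⟩⟩ := rfl
    rw [this, hx]
  · intro u v hne
    have h1 := hf {g u, g v}
    have e1 : (Subtype.val '' (Subtype.val '' ({g u, g v} : Set W)) : Set (Cl GE))
        = {Cl.jv GE u, Cl.jv GE v} := by
      rw [Set.image_pair, Set.image_pair]
    have e2 : (Subtype.val '' (f '' ({g u, g v} : Set W)) : Set L')
        = {((f (g u)) : L'), ((f (g v)) : L')} := by
      rw [Set.image_pair, Set.image_pair]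
    have h2 : (∃ w, IsCanonicalJoinRep ({Cl.jv GE u, Cl.jv GE v} : Set (Cl GE)) w) ↔
        (∃ w, IsCanonicalJoinRep ({((f (g u)) : L'), ((f (g v)) : L')} : Set L') w) := by
      rw [← e1, ← e2]
      exact h1
    have hneJ : Cl.jv GE u ≠ Cl.jv GE v := fun h => hne (Cl.jv_inj GE_asymm h)
    have hneJ' : ((f (g u)) : L') ≠ ((f (g v)) : L') := fun h =>
      hne (hginj _ _ (f.injective (Subtype.ext h)))
    have h3 := edge_iff (Cl.semidistributive (E := GE)) (Cl.supIrred_jv GE_irrefl u)
      (Cl.supIrred_jv GE_irrefl v)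
    have h4 := edge_iff hL' (f (g u)).2 (f (g v)).2
    rw [Cl.le_kappa_iff GE_irrefl hne, Cl.le_kappa_iff GE_irrefl hne.symm] at h3
    rw [← h4, ← h2]
    constructor
    · intro hadj hcon
      have h5 := h3.1 ⟨hcon.1, hneJ⟩
      rcases hadj with h | h
      · exact h5.1 h
      · exact h5.2 h
    · intro hcon
      by_contra hadj
      apply hcon
      refine ⟨(h3.2 ⟨fun h => hadj (Or.inl h), fun h => hadj (Or.inr h)⟩).1, hneJ'⟩

end Pool.Agent.Results.MP_b1aa48_co.NotHereditary
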